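import Pool.Agent.helper56.P3.Util
import Pool.Agent.helper17.P3.SymCoord

/-!
# MP_ec0848_ag, module P3-Lb: second order expansion in the symmetric coordinate
-/

namespace Pool.Agent.helper56.P3

open Finset Pool.Agent.helper56.Per

section Lb0

variable {K : Type*} [Field K] {Γ : Type*} [LinearOrderedCommGroupWithZero Γ] {v : Valuation K Γ}

theorem Lb_iadd {x y : K} (hx : v x ≤ 1) (hy : v y ≤ 1) : v (x + y) ≤ 1 := v.map_add_le hx hy

theorem Lb_isub {x y : K} (hx : v x ≤ 1) (hy : v y ≤ 1) : v (x - y) ≤ 1 := v.map_sub_le hx hy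

theorem Lb_imul {x y : K} (hx : v x ≤ 1) (hy : v y ≤ 1) : v (x * y) ≤ 1 := by
  rw [map_mul]
  exact mul_le_one' hx hy

theorem Lb_ineg {x : K} (hx : v x ≤ 1) : v (-x) ≤ 1 := by rwa [Valuation.map_neg]

theorem Lb_ipow {x : K} (hx : v x ≤ 1) (n : ℕ) : v (x ^ n) ≤ 1 := by
  rw [map_pow]
  exact pow_le_one' hx n

theorem Lb_ione : v (1 : K) ≤ 1 := by rw [map_one]

theorem Lb_inat (n : ℕ) : v (n : K) ≤ 1 := by
  induction n with
  | zero => rw [Nat.cast_zero, map_zero]; exact zero_le_one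
  | succ n ih => rw [Nat.cast_succ]; exact Lb_iadd ih Lb_ione

theorem Lb_iofNat (n : ℕ) [n.AtLeastTwo] : v (OfNat.ofNat n : K) ≤ 1 := by
  have := Lb_inat (v := v) (OfNat.ofNat n)
  rwa [Nat.cast_ofNat] at this

theorem Lb_sadd {x y : K} {r : Γ} (hx : v x < r) (hy : v y < r) : v (x + y) < r :=
  v.map_add_lt hx hy

theorem Lb_ssub {x y : K} {r : Γ} (hx : v x < r) (hy : v y < r) : v (x - y) < r := by
  rw [sub_eq_add_neg]
  exact v.map_add_lt hx (by rwa [Valuation.map_neg])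

theorem Lb_smul {x y : K} {r : Γ} (hx : v x < r) (hy : v y ≤ 1) : v (x * y) < r := by
  rw [map_mul]
  calc v x * v y ≤ v x * 1 := mul_le_mul_right hy _
    _ = v x := mul_one _
    _ < r := hx

theorem Lb_smul' {x y : K} {r : Γ} (hx : v x ≤ 1) (hy : v y < r) : v (x * y) < r := by
  rw [mul_comm]
  exact Lb_smul hy hx

theorem Lb_sneg {x : K} {r : Γ} (hx : v x < r) : v (-x) < r := by rwa [Valuation.map_neg]

/-- `v (τ * μ) < v τ` if `v μ < 1` -/
theorem Lb_tmul {x y : K} (hx : x ≠ 0) (hy : v y < 1) : v (x * y) < v x := by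
  rw [map_mul]
  have h : 0 < v x := zero_lt_iff.2 ((v.ne_zero_iff).2 hx)
  calc v x * v y < v x * 1 := by
        exact mul_lt_mul_of_pos_left hy h
    _ = v x := mul_one _

theorem Lb_tmul' {x y z : K} (hx : x ≠ 0) (hxz : v x ≤ v z) (hy : v y < 1) : v (x * y) < v z :=
  lt_of_lt_of_le (Lb_tmul hx hy) hxz

end Lb0

section Lb1

variable {K : Type*} [Field K] {Γ : Type*} [LinearOrderedCommGroupWithZero Γ] {v : Valuation K Γ}
  {b c τ β S : K} {q : ℕ}

theorem Lb_pos {x : K} (hx : x ≠ 0) : 0 < v x := zero_lt_iff.2 ((v.ne_zero_iff).2 hx)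

theorem Lb_one_add {x : K} (hx : v x < 1) : v (1 + x) = 1 := by
  rw [Valuation.map_add_eq_of_lt_left v (by rwa [map_one]), map_one]

theorem Lb_one_sub {x : K} (hx : v x < 1) : v (1 - x) = 1 := by
  rw [sub_eq_add_neg]
  exact Lb_one_add (by rwa [Valuation.map_neg])

theorem Lb_sq_lt {x : K} (hx0 : x ≠ 0) (hx : v x < 1) : v (x ^ 2) < v x := by
  rw [sq]
  exact Lb_tmul hx0 hx

theorem Lb_sq_lt1 {x : K} (hx : v x < 1) : v (x ^ 2) < 1 := by
  rw [map_pow]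
  exact pow_lt_one' hx two_ne_zero

theorem Lb_vc (h2 : v 2 = 1) (hs : Sym v b c τ β S q) : v c = v τ := by
  have h := congrArg v hs.ht
  rw [map_mul, map_mul, h2, one_mul, Lb_one_add (Lb_sq_lt1 hs.vt), mul_one] at h
  exact h

theorem Lb_p0 (hs : Sym v b c τ β S q) : (1 + τ ^ 2 : K) ≠ 0 :=
  ne_zero_of_v_one (Lb_one_add (v := v) (Lb_sq_lt1 hs.vt))

theorem Lb_m0 (hs : Sym v b c τ β S q) : (1 - τ ^ 2 : K) ≠ 0 :=
  ne_zero_of_v_one (Lb_one_sub (v := v) (Lb_sq_lt1 hs.vt))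

theorem Lb_vβ (hb : v b = 1) (hs : Sym v b c τ β S q) : v β = 1 := by
  have h := congrArg v hs.hβ
  rw [map_mul, map_mul, hb, one_mul, Lb_one_add (Lb_sq_lt1 hs.vt),
    Lb_one_sub (Lb_sq_lt1 hs.vt), mul_one] at h
  exact h

/-- `κ = (1 + τ²)/(1 - τ²)` -/
noncomputable def Lb_κ (τ : K) : K := (1 + τ ^ 2) / (1 - τ ^ 2)

theorem Lb_vκ (hs : Sym v b c τ β S q) : v (Lb_κ τ) = 1 := by
  unfold Lb_κ
  rw [map_div₀, Lb_one_add (Lb_sq_lt1 hs.vt), Lb_one_sub (Lb_sq_lt1 hs.vt), div_one]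

theorem Lb_κ_sub (h2 : v 2 = 1) (hs : Sym v b c τ β S q) : v (Lb_κ τ - 1) = v τ ^ 2 := by
  have e : Lb_κ τ - 1 = 2 * τ ^ 2 / (1 - τ ^ 2) := by
    unfold Lb_κ
    have := Lb_m0 hs
    field_simp
    ring
  rw [e, map_div₀, Lb_one_sub (Lb_sq_lt1 hs.vt), div_one, map_mul, h2, one_mul, map_pow]

theorem Lb_κ_sub_lt (h2 : v 2 = 1) (hs : Sym v b c τ β S q) : v (Lb_κ τ - 1) < v τ := by
  rw [Lb_κ_sub h2 hs, ← map_pow]
  exact Lb_sq_lt hs.t0 hs.vt

theorem Lb_bκ (hs : Sym v b c τ β S q) : b * Lb_κ τ = β := by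
  unfold Lb_κ
  have := Lb_m0 hs
  rw [← mul_div_assoc, ← hs.hβ, mul_div_cancel_right₀ _ this]

/-- the multiplicative form of the map -/
theorem Lb_mult (hc0 : c ≠ 0) (hb0 : b ≠ 0) {x x' : K} (hx0 : x ≠ 0)
    (hx : x' = (x + x⁻¹ + (b - 1 - c ^ 2) / c) / b) :
    1 - c * x' = (1 - c * x) * (1 - c / x) / b := by
  rw [hx]
  field_simp
  ring

/-- the function `chi` in the `W`-coordinate -/
noncomputable def Lb_X (c τ x : K) : K := Lb_κ τ * (1 - c * x)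

/-- the function `chi` of the inverse in the `W`-coordinate -/
noncomputable def Lb_G (c τ x : K) : K := Lb_κ τ * (1 - c / x)

theorem Lb_XG (hc0 : c ≠ 0) (hb0 : b ≠ 0) (hs : Sym v b c τ β S q) {x x' : K} (hx0 : x ≠ 0)
    (hx : x' = (x + x⁻¹ + (b - 1 - c ^ 2) / c) / b) :
    Lb_X c τ x' = β⁻¹ * (Lb_X c τ x * Lb_G c τ x) := by
  unfold Lb_X Lb_G
  have hκ : Lb_κ τ ≠ 0 := ne_zero_of_v_one (Lb_vκ hs)
  rw [Lb_mult hc0 hb0 hx0 hx, ← Lb_bκ hs]
  field_simp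

/-- inside the orbit segment -/
theorem Lb_orbit (hc : Ctx v b c) (hr : Rot v b c q) {x : ℕ → K}
    (hx : ∀ l < q, x (l + 1) = (x l + (x l)⁻¹ + (b - 1 - c ^ 2) / c) / b)
    (hx0 : v (x 0) = 1) (l : ℕ) (hl : l < q) :
    v ((1 - c * x l) - b⁻¹ ^ l) < 1 ∧ v (c / x l) ≤ v c ∧ x l ≠ 0 ∧
      (0 < l → v (c * x l) = 1 ∧ 1 < v (x l)) := by
  have hb0 := hc.b0
  induction l with
  | zero =>
    refine ⟨?_, ?_, ne_zero_of_v_one hx0, fun h => absurd h (lt_irrefl _)⟩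
    · rw [pow_zero, show (1 - c * x 0) - 1 = -(c * x 0) by ring, Valuation.map_neg, map_mul, hx0,
        mul_one]
      exact hc.vc
    · rw [map_div₀, hx0, div_one]
  | succ l ih =>
    obtain ⟨h1, h2, h3, -⟩ := ih (by omega)
    have hbi : v b⁻¹ ≤ 1 := by rw [map_inv₀, hc.vb, inv_one]
    have hA : v (1 - c * x l) ≤ 1 := by
      have e : (1 - c * x l) = ((1 - c * x l) - b⁻¹ ^ l) + b⁻¹ ^ l := by ring
      rw [e]
      exact Lb_iadd h1.le (Lb_ipow hbi l)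
    have h4 : v ((1 - c * x (l + 1)) - b⁻¹ ^ (l + 1)) < 1 := by
      rw [Lb_mult hc.c0 hb0 h3 (hx l (by omega))]
      have e : (1 - c * x l) * (1 - c / x l) / b - b⁻¹ ^ (l + 1)
          = b⁻¹ * ((1 - c * x l) - b⁻¹ ^ l) - b⁻¹ * (1 - c * x l) * (c / x l) := by
        rw [pow_succ]
        ring
      rw [e]
      apply Lb_ssub
      · exact Lb_smul' hbi h1
      · exact Lb_smul' (Lb_imul hbi hA) (lt_of_le_of_lt h2 hc.vc)
    have h5 : v (c * x (l + 1)) = 1 := by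
      have e : c * x (l + 1) = (1 - b⁻¹ ^ (l + 1)) + -((1 - c * x (l + 1)) - b⁻¹ ^ (l + 1)) := by
        ring
      have h6 : v (1 - b⁻¹ ^ (l + 1)) = 1 := by
        have e2 : 1 - b⁻¹ ^ (l + 1) = b⁻¹ ^ (l + 1) * (b ^ (l + 1) - 1) := by
          rw [mul_sub, mul_one, ← mul_pow, inv_mul_cancel₀ hb0, one_pow]
        rw [e2, map_mul, hr.one (l + 1) (by omega) hl, map_pow, map_inv₀, hc.vb, inv_one, one_pow,
          one_mul]
      rw [e, Valuation.map_add_eq_of_lt_left v (by rwa [h6, Valuation.map_neg]), h6]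
    have hc0 : 0 < v c := Lb_pos hc.c0
    have h7 : 1 < v (x (l + 1)) := by
      rw [map_mul] at h5
      by_contra hcon
      rw [not_lt] at hcon
      have : v c * v (x (l + 1)) ≤ v c * 1 := mul_le_mul_right hcon _
      rw [h5, mul_one] at this
      exact absurd (lt_of_le_of_lt this hc.vc) (lt_irrefl _)
    refine ⟨h4, ?_, ?_, fun _ => ⟨h5, h7⟩⟩
    · rw [map_div₀, div_le_iff₀ (lt_trans zero_lt_one h7)]
      calc v c = v c * 1 := (mul_one _).symm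
        _ ≤ v c * v (x (l + 1)) := mul_le_mul_right h7.le _
    · intro h0
      rw [h0, map_zero] at h7
      exact absurd h7 (not_lt.2 zero_le_one)

theorem Lb_G_sub (h2 : v 2 = 1) (hs : Sym v b c τ β S q) {x : K} (hx : v (c / x) < v τ) :
    v (Lb_G c τ x - 1) < v τ := by
  have e : Lb_G c τ x - 1 = (Lb_κ τ - 1) - Lb_κ τ * (c / x) := by
    unfold Lb_G
    ring
  rw [e]
  exact Lb_ssub (Lb_κ_sub_lt h2 hs) (Lb_smul' (Lb_vκ hs).le hx)

/-- `(1 + ε)^n = 1 + n ε + O(ε²)` -/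
theorem Lb_binom {ε : K} (hε : v ε ≤ 1) (n : ℕ) :
    v ((1 + ε) ^ n - 1 - n * ε) ≤ v ε ^ 2 := by
  induction n with
  | zero => simp
  | succ n ih =>
    have e : (1 + ε) ^ (n + 1) - 1 - ((n + 1 : ℕ) : K) * ε
        = ((1 + ε) ^ n - 1 - n * ε) * (1 + ε) + n * ε ^ 2 := by
      push_cast
      ring
    rw [e]
    apply Valuation.map_add_le
    · rw [map_mul]
      calc _ ≤ v ε ^ 2 * 1 := mul_le_mul' ih (Lb_iadd Lb_ione hε)
        _ = v ε ^ 2 := mul_one _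
    · rw [map_mul, map_pow]
      calc _ ≤ 1 * v ε ^ 2 := mul_le_mul' (Lb_inat n) le_rfl
        _ = v ε ^ 2 := one_mul _

/-- the first step: `X₀ G₀ = 1 - 2 τ J + o(τ)` -/
theorem Lb_first (h2 : v 2 = 1) (hc : Ctx v b c) (hs : Sym v b c τ β S q) {x J : K}
    (hx0 : v x = 1) (hJ : v (x + x⁻¹ - J) < 1) :
    v (Lb_X c τ x * Lb_G c τ x - (1 - 2 * τ * J)) < v τ := by
  have hvc := Lb_vc h2 hs
  have hxn : x ≠ 0 := ne_zero_of_v_one hx0
  have hxi : v x⁻¹ ≤ 1 := by rw [map_inv₀, hx0, inv_one]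
  have hci : v c ≤ 1 := hc.vc.le
  have hti : v τ ≤ 1 := hs.vt.le
  have hκ := (Lb_vκ hs).le
  have hc2 : c ^ 2 = c * c := sq c
  have hct : c - 2 * τ = -(c * τ ^ 2) := by
    have := hs.ht
    linear_combination this
  have e : Lb_X c τ x * Lb_G c τ x - (1 - 2 * τ * J)
      = (Lb_κ τ - 1) * ((Lb_κ τ + 1) * (1 + c ^ 2 - c * (x + x⁻¹)))
        + c * c - (c - 2 * τ) * (x + x⁻¹) - τ * (2 * (x + x⁻¹ - J)) := by
    unfold Lb_X Lb_G
    field_simp
    ring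
  have hxi' : v x ≤ 1 := hx0.le
  rw [e, hct]
  apply Lb_ssub
  · apply Lb_ssub
    · apply Lb_sadd
      · apply Lb_smul (Lb_κ_sub_lt h2 hs)
        (repeat' first | assumption | exact Lb_ione | exact Lb_iofNat _ | exact Lb_inat _ | apply Lb_iadd | apply Lb_isub | apply Lb_imul | apply Lb_ineg | apply Lb_ipow)
      · rw [← hvc]
        exact Lb_tmul hc.c0 hc.vc
    · have e2 : -(c * τ ^ 2) * (x + x⁻¹) = τ * (-(c * τ) * (x + x⁻¹)) := by ring
      rw [e2]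
      apply Lb_tmul hs.t0
      apply Lb_smul
      · apply Lb_sneg
        exact Lb_smul' hci hs.vt
      · (repeat' first | assumption | exact Lb_ione | exact Lb_iofNat _ | exact Lb_inat _ | apply Lb_iadd | apply Lb_isub | apply Lb_imul | apply Lb_ineg | apply Lb_ipow)
  · apply Lb_tmul hs.t0
    exact Lb_smul' h2.le hJ

/-- `X_l = β^{-l} (1 - 2 τ J) + o(τ)` -/
theorem Lb_key1 (h2 : v 2 = 1) (hc : Ctx v b c) (hr : Rot v b c q) (hs : Sym v b c τ β S q)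
    {x : ℕ → K} (hx : ∀ l < q, x (l + 1) = (x l + (x l)⁻¹ + (b - 1 - c ^ 2) / c) / b)
    (hx0 : v (x 0) = 1) {J : K} (hJ : v (x 0 + (x 0)⁻¹ - J) < 1) (l : ℕ) (hl : l < q) :
    v (Lb_X c τ (x (l + 1)) - β⁻¹ ^ (l + 1) * (1 - 2 * τ * J)) < v τ := by
  have hvc := Lb_vc h2 hs
  have hβi : v β⁻¹ ≤ 1 := by rw [map_inv₀, Lb_vβ hc.vb hs, inv_one]
  have hti : v τ ≤ 1 := hs.vt.le
  have hci : v c ≤ 1 := hc.vc.le
  induction l with
  | zero =>
    obtain ⟨h1, h2', h3, -⟩ := Lb_orbit hc hr hx hx0 0 hl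
    rw [Lb_XG hc.c0 hc.b0 hs h3 (hx 0 hl), zero_add, pow_one, ← mul_sub]
    exact Lb_smul' hβi (Lb_first h2 hc hs hx0 hJ)
  | succ l ih =>
    obtain ⟨h1, h2', h3, h4⟩ := Lb_orbit hc hr hx hx0 (l + 1) hl
    obtain ⟨h5, h6⟩ := h4 (by omega)
    rw [Lb_XG hc.c0 hc.b0 hs h3 (hx (l + 1) hl)]
    have e : β⁻¹ * (Lb_X c τ (x (l + 1)) * Lb_G c τ (x (l + 1)))
        - β⁻¹ ^ (l + 1 + 1) * (1 - 2 * τ * J)
        = β⁻¹ * (Lb_X c τ (x (l + 1)) * (Lb_G c τ (x (l + 1)) - 1))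
        + β⁻¹ * (Lb_X c τ (x (l + 1)) - β⁻¹ ^ (l + 1) * (1 - 2 * τ * J)) := by
      rw [pow_succ β⁻¹ (l + 1)]
      ring
    rw [e]
    have hXi : v (Lb_X c τ (x (l + 1))) ≤ 1 := by
      unfold Lb_X
      have := (Lb_vκ hs).le
      have h7 := h5.le
      (repeat' first | assumption | exact Lb_ione | exact Lb_iofNat _ | exact Lb_inat _ | apply Lb_iadd | apply Lb_isub | apply Lb_imul | apply Lb_ineg | apply Lb_ipow)
    apply Lb_sadd
    · apply Lb_smul' hβi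
      apply Lb_smul' hXi
      apply Lb_G_sub h2 hs
      rw [map_div₀, div_lt_iff₀ (lt_trans zero_lt_one h6), hvc]
      calc v τ = v τ * 1 := (mul_one _).symm
        _ < v τ * v (x (l + 1)) := mul_lt_mul_of_pos_left h6 (Lb_pos hs.t0)
    · exact Lb_smul' hβi (ih (by omega))

/-- the size of the rotation defect -/
theorem Lb_eps (hcz : ∀ j : ℕ, j ≠ 0 → v (j : K) = 1) (hc : Ctx v b c) (hr : Rot v b c q)
    (hs : Sym v b c τ β S q) (hS : v S ≤ 1) {z : K} (hz1 : z ^ q = 1)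
    (hz : v (b * z - 1) < 1) :
    ∃ ε : K, β⁻¹ = z * (1 + ε) ∧ v ε ≤ v τ ∧ v (q * ε + 2 * τ * S) < v τ := by
  have h2 : v (2 : K) = 1 := by have := hcz 2 two_ne_zero; simpa using this
  have hq0 : q ≠ 0 := by have := hr.two_le; omega
  have hz0 : z ≠ 0 := by
    rintro rfl
    rw [zero_pow hq0] at hz1
    exact zero_ne_one hz1
  have hvβ := Lb_vβ hc.vb hs
  have hβ0 : β ≠ 0 := ne_zero_of_v_one hvβ
  have hti : v τ ≤ 1 := hs.vt.le
  have hτ0 := Lb_pos (v := v) hs.t0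
  have hbz : v (b * z) = 1 := by
    have e : b * z = 1 + (b * z - 1) := by ring
    rw [e]
    exact Lb_one_add hz
  have hβz : v (β * z - 1) < 1 := by
    have e : β * z - 1 = (Lb_κ τ - 1) * (b * z) + (b * z - 1) := by
      rw [← Lb_bκ hs]
      ring
    rw [e]
    apply Lb_sadd _ hz
    apply Lb_smul _ hbz.le
    exact lt_of_lt_of_le (Lb_κ_sub_lt h2 hs) hti
  have hβz1 : v (β * z) = 1 := by
    have e : β * z = 1 + (β * z - 1) := by ring
    rw [e]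
    exact Lb_one_add hβz
  have hβz0 : β * z ≠ 0 := ne_zero_of_v_one hβz1
  obtain ⟨ε, hεd⟩ : ∃ ε : K, ε = (β * z)⁻¹ - 1 := ⟨_, rfl⟩
  have hε1 : β⁻¹ = z * (1 + ε) := by
    rw [hεd]
    field_simp
    ring
  have hεlt : v ε < 1 := by
    have e : ε = -((β * z - 1) * (β * z)⁻¹) := by
      rw [hεd]
      field_simp
      ring
    rw [e]
    apply Lb_sneg
    apply Lb_smul hβz
    rw [map_inv₀, hβz1, inv_one]
  have hpow : (1 + ε) ^ q = β⁻¹ ^ q := by
    rw [hε1, mul_pow, hz1, one_mul]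
  have hS1 : v (1 + τ * S) = 1 := Lb_one_add (Lb_smul hs.vt hS)
  have hS0 : 1 + τ * S ≠ 0 := ne_zero_of_v_one hS1
  have hSd : β⁻¹ ^ q = 1 - 2 * τ * S / (1 + τ * S) := by
    have := hs.hS
    field_simp
    field_simp at this
    linear_combination this
  have hB := Lb_binom hεlt.le q
  have hsz : v ((1 + ε) ^ q - 1) ≤ v τ := by
    rw [hpow, hSd, show (1 - 2 * τ * S / (1 + τ * S) - 1) = τ * (-(2 * S / (1 + τ * S))) by ring,
      map_mul]
    calc v τ * _ ≤ v τ * 1 := by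
          apply mul_le_mul_right
          rw [Valuation.map_neg, map_div₀, hS1, div_one, map_mul, h2, one_mul]
          exact hS
      _ = v τ := mul_one _
  have hqε : v ((q : K) * ε) = v ε := by rw [map_mul, hcz q hq0, one_mul]
  have hετ : v ε ≤ v τ := by
    by_contra hcon
    rw [not_le] at hcon
    have hε0 : 0 < v ε := lt_trans hτ0 hcon
    have h3 : v ((1 + ε) ^ q - 1 - q * ε) < v ((q : K) * ε) := by
      rw [hqε]
      refine lt_of_le_of_lt hB ?_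
      rw [sq]
      calc v ε * v ε < v ε * 1 := mul_lt_mul_of_pos_left hεlt hε0
        _ = v ε := mul_one _
    have h4 : v ((1 + ε) ^ q - 1) = v ((q : K) * ε) := v_eq_of_sub_lt h3
    rw [hqε] at h4
    rw [h4] at hsz
    exact absurd hsz (not_le.2 hcon)
  refine ⟨ε, hε1, hετ, ?_⟩
  have e : (q : K) * ε + 2 * τ * S
      = -((1 + ε) ^ q - 1 - q * ε) + τ * ((2 * S / (1 + τ * S)) * (τ * S)) := by
    rw [hpow, hSd]
    field_simp
    ring
  rw [e]
  apply Lb_sadd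
  · apply Lb_sneg
    refine lt_of_le_of_lt hB ?_
    rw [sq]
    calc v ε * v ε ≤ v τ * v τ := mul_le_mul' hετ hετ
      _ < v τ * 1 := mul_lt_mul_of_pos_left hs.vt hτ0
      _ = v τ := mul_one _
  · apply Lb_tmul hs.t0
    apply Lb_smul'
    · rw [map_div₀, hS1, div_one, map_mul, h2, one_mul]
      exact hS
    · exact Lb_smul hs.vt hS

/-- `β^{-l} = z^l (1 - 2 τ l S/q) + o(τ)` -/
theorem Lb_betapow (hcz : ∀ j : ℕ, j ≠ 0 → v (j : K) = 1) (hc : Ctx v b c) (hr : Rot v b c q)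
    (hs : Sym v b c τ β S q) (hS : v S ≤ 1) {z : K} (hz1 : z ^ q = 1)
    (hz : v (b * z - 1) < 1) (l : ℕ) :
    v (β⁻¹ ^ l - z ^ l * (1 - 2 * τ * (l * S / q))) < v τ := by
  obtain ⟨ε, h1, h2, h3⟩ := Lb_eps hcz hc hr hs hS hz1 hz
  have hq0 : q ≠ 0 := by have := hr.two_le; omega
  have hqv := hcz q hq0
  have hq0' : (q : K) ≠ 0 := ne_zero_of_v_one hqv
  have hqi : v (q : K)⁻¹ ≤ 1 := by rw [map_inv₀, hqv, inv_one]
  have hzv : v z ≤ 1 := by
    have h4 : v z ^ q = 1 := by rw [← map_pow, hz1, map_one]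
    by_contra hcon
    rw [not_le] at hcon
    have := one_lt_pow' hcon hq0
    rw [h4] at this
    exact lt_irrefl _ this
  have hti : v τ ≤ 1 := hs.vt.le
  have hB := Lb_binom (le_trans h2 hti) l
  have e : β⁻¹ ^ l - z ^ l * (1 - 2 * τ * (l * S / q))
      = z ^ l * ((1 + ε) ^ l - 1 - l * ε) + z ^ l * (l * (q : K)⁻¹) * (q * ε + 2 * τ * S) := by
    rw [h1, mul_pow]
    field_simp
    ring
  rw [e]
  apply Lb_sadd
  · apply Lb_smul' (Lb_ipow hzv l)
    refine lt_of_le_of_lt hB ?_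
    rw [sq]
    calc v ε * v ε ≤ v τ * v τ := mul_le_mul' h2 h2
      _ < v τ * 1 := mul_lt_mul_of_pos_left hs.vt (Lb_pos hs.t0)
      _ = v τ := mul_one _
  · apply Lb_smul' _ h3
    (repeat' first | assumption | exact Lb_ione | exact Lb_iofNat _ | exact Lb_inat _ | apply Lb_iadd | apply Lb_isub | apply Lb_imul | apply Lb_ineg | apply Lb_ipow)

theorem Lb_vz {q : ℕ} (hq0 : q ≠ 0) {z : K} (hz1 : z ^ q = 1) : v z = 1 := by
  have h4 : v z ^ q = 1 := by rw [← map_pow, hz1, map_one]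
  rcases lt_trichotomy (v z) 1 with h | h | h
  · have := pow_lt_one' h hq0
    rw [h4] at this
    exact absurd this (lt_irrefl _)
  · exact h
  · have := one_lt_pow' h hq0
    rw [h4] at this
    exact absurd this (lt_irrefl _)

theorem Lb_key2 (hcz : ∀ j : ℕ, j ≠ 0 → v (j : K) = 1) (hc : Ctx v b c) (hr : Rot v b c q)
    (hs : Sym v b c τ β S q) {t J : K} (ht : v t ≤ 1) (hSt : v (S - t) < 1) {z : K}
    (hz1 : z ^ q = 1) (hz : v (b * z - 1) < 1) {x : ℕ → K}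
    (hx : ∀ l < q, x (l + 1) = (x l + (x l)⁻¹ + (b - 1 - c ^ 2) / c) / b)
    (hx0 : v (x 0) = 1) (hJ : v (x 0 + (x 0)⁻¹ - J) < 1) (l : ℕ) (hl0 : 0 < l) (hl : l ≤ q) :
    v (Lb_X c τ (x l) - z ^ l * (1 - 2 * τ * (l * t / q + J))) < v τ := by
  have h2 : v (2 : K) = 1 := by have := hcz 2 two_ne_zero; simpa using this
  have hq0 : q ≠ 0 := by have := hr.two_le; omega
  have hqv := hcz q hq0
  have hq0' : (q : K) ≠ 0 := ne_zero_of_v_one hqv
  have hqi : v (q : K)⁻¹ ≤ 1 := by rw [map_inv₀, hqv, inv_one]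
  have hzv : v z ≤ 1 := (Lb_vz hq0 hz1).le
  have hti : v τ ≤ 1 := hs.vt.le
  have hxi : v (x 0) ≤ 1 := hx0.le
  have hxii : v (x 0)⁻¹ ≤ 1 := by rw [map_inv₀, hx0, inv_one]
  have hSi : v S ≤ 1 := by
    have e : S = (S - t) + t := by ring
    rw [e]
    exact Lb_iadd hSt.le ht
  have hJi : v J ≤ 1 := by
    have e : J = (x 0 + (x 0)⁻¹) - (x 0 + (x 0)⁻¹ - J) := by ring
    rw [e]
    exact Lb_isub (Lb_iadd hxi hxii) hJ.le
  have hk := Lb_key1 h2 hc hr hs hx hx0 hJ (l - 1) (by omega)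
  rw [show l - 1 + 1 = l by omega] at hk
  have hb := Lb_betapow hcz hc hr hs hSi hz1 hz l
  have e : Lb_X c τ (x l) - z ^ l * (1 - 2 * τ * (l * t / q + J))
      = (Lb_X c τ (x l) - β⁻¹ ^ l * (1 - 2 * τ * J))
        + (β⁻¹ ^ l - z ^ l * (1 - 2 * τ * (l * S / q))) * (1 - 2 * τ * J)
        + τ * (z ^ l * (2 * l * (q : K)⁻¹) * (2 * J * S * τ - (S - t))) := by
    field_simp
    ring
  rw [e]
  apply Lb_sadd
  · apply Lb_sadd hk
    apply Lb_smul hb
    (repeat' first | assumption | exact Lb_ione | exact Lb_iofNat _ | exact Lb_inat _ | apply Lb_iadd | apply Lb_isub | apply Lb_imul | apply Lb_ineg | apply Lb_ipow)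
  · apply Lb_tmul hs.t0
    apply Lb_smul'
    · (repeat' first | assumption | exact Lb_ione | exact Lb_iofNat _ | exact Lb_inat _ | apply Lb_iadd | apply Lb_isub | apply Lb_imul | apply Lb_ineg | apply Lb_ipow)
    · apply Lb_ssub _ hSt
      apply Lb_smul' _ hs.vt
      (repeat' first | assumption | exact Lb_ione | exact Lb_iofNat _ | exact Lb_inat _ | apply Lb_iadd | apply Lb_isub | apply Lb_imul | apply Lb_ineg | apply Lb_ipow)

theorem Lb_u_eq (h2 : (2 : K) ≠ 0) (hs : Sym v b c τ β S q) {x : K} (hx : x ≠ τ) :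
    (1 - τ * x) / (x - τ) = τ * ((1 + Lb_X c τ x) / (1 - Lb_X c τ x)) := by
  have hm := Lb_m0 hs
  have ht := hs.ht
  have hx' : x - τ ≠ 0 := sub_ne_zero.2 hx
  have h1 : 1 + Lb_X c τ x = 2 * (1 - τ * x) / (1 - τ ^ 2) := by
    unfold Lb_X Lb_κ
    field_simp
    linear_combination (-x) * ht
  have h3 : 1 - Lb_X c τ x = 2 * τ * (x - τ) / (1 - τ ^ 2) := by
    unfold Lb_X Lb_κ
    field_simp
    linear_combination x * ht
  rw [h1, h3]
  have := hs.t0
  field_simp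

theorem Lb_out (hcz : ∀ j : ℕ, j ≠ 0 → v (j : K) = 1) (hc : Ctx v b c) (hr : Rot v b c q)
    (hs : Sym v b c τ β S q) {t J : K} (ht : v t ≤ 1) (hSt : v (S - t) < 1) {z : K}
    (hz1 : z ^ q = 1) (hz : v (b * z - 1) < 1) {x : ℕ → K}
    (hx : ∀ l < q, x (l + 1) = (x l + (x l)⁻¹ + (b - 1 - c ^ 2) / c) / b)
    (hx0 : v (x 0) = 1) (hJ : v (x 0 + (x 0)⁻¹ - J) < 1) (l : ℕ) (hl0 : 0 < l) (hl : l < q)
    (hzl : v (1 - z ^ l) = 1) :
    v ((1 - τ * x l) / (x l - τ) - (τ * ((1 + z ^ l) / (1 - z ^ l))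
      + τ ^ 2 * (4 * ((1 - z⁻¹ ^ l) * (1 - z ^ l))⁻¹ * (l * t / q + J)))) < v τ ^ 2 := by
  have h2 : v (2 : K) = 1 := by have := hcz 2 two_ne_zero; simpa using this
  have h20 : (2 : K) ≠ 0 := ne_zero_of_v_one h2
  have hq0 : q ≠ 0 := by have := hr.two_le; omega
  have hqv := hcz q hq0
  have hqi : v (q : K)⁻¹ ≤ 1 := by rw [map_inv₀, hqv, inv_one]
  have hzv : v z ≤ 1 := (Lb_vz hq0 hz1).le
  have hz0 : z ≠ 0 := ne_zero_of_v_one (Lb_vz (v := v) hq0 hz1)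
  have hti : v τ ≤ 1 := hs.vt.le
  have hxi : v (x 0) ≤ 1 := hx0.le
  have hxii : v (x 0)⁻¹ ≤ 1 := by rw [map_inv₀, hx0, inv_one]
  have hJi : v J ≤ 1 := by
    have e : J = (x 0 + (x 0)⁻¹) - (x 0 + (x 0)⁻¹ - J) := by ring
    rw [e]
    exact Lb_isub (Lb_iadd hxi hxii) hJ.le
  obtain ⟨-, -, h3, h4⟩ := Lb_orbit hc hr hx hx0 l hl
  obtain ⟨h5, h6⟩ := h4 hl0
  have hxτ : x l ≠ τ := by
    rintro h
    rw [h] at h6
    exact absurd (lt_trans h6 hs.vt) (lt_irrefl _)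
  rw [Lb_u_eq h20 hs hxτ]
  have hk := Lb_key2 hcz hc hr hs ht hSt hz1 hz hx hx0 hJ l hl0 hl.le
  obtain ⟨X, hX⟩ : ∃ X, X = Lb_X c τ (x l) := ⟨_, rfl⟩
  obtain ⟨M, hM⟩ : ∃ M : K, M = l * t / q + J := ⟨_, rfl⟩
  have hMi : v M ≤ 1 := by
    rw [hM, div_eq_mul_inv]
    (repeat' first | assumption | exact Lb_ione | exact Lb_iofNat _ | exact Lb_inat _ | apply Lb_iadd | apply Lb_isub | apply Lb_imul | apply Lb_ineg | apply Lb_ipow)
  rw [← hX, ← hM] at hk ⊢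
  obtain ⟨z', hz'⟩ : ∃ z', z' = z ^ l := ⟨_, rfl⟩
  have hz'0 : z' ≠ 0 := by rw [hz']; exact pow_ne_zero _ hz0
  have hz'i : v z' ≤ 1 := by rw [hz']; exact Lb_ipow hzv l
  have hinv : z⁻¹ ^ l = z'⁻¹ := by rw [hz', inv_pow]
  rw [hinv, ← hz']
  rw [← hz'] at hk hzl
  have hz'1 : 1 - z' ≠ 0 := ne_zero_of_v_one hzl
  have hδ : v (X - z') < 1 := by
    have e : X - z' = (X - z' * (1 - 2 * τ * M)) - τ * (z' * (2 * M)) := by ring
    rw [e]
    apply Lb_ssub (lt_of_lt_of_le hk hti)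
    apply Lb_smul hs.vt
    (repeat' first | assumption | exact Lb_ione | exact Lb_iofNat _ | exact Lb_inat _ | apply Lb_iadd | apply Lb_isub | apply Lb_imul | apply Lb_ineg | apply Lb_ipow)
  have hX1 : v (1 - X) = 1 := by
    have e : 1 - X = (1 - z') + -(X - z') := by ring
    rw [e, Valuation.map_add_eq_of_lt_left v (by rwa [hzl, Valuation.map_neg]), hzl]
  have hX0 : 1 - X ≠ 0 := ne_zero_of_v_one hX1
  have hz'2 : 1 - z'⁻¹ ≠ 0 := by
    intro h
    apply hz'1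
    have : z'⁻¹ = 1 := (sub_eq_zero.1 h).symm
    rw [inv_eq_one.1 this, sub_self]
  have hD1 : v (((1 - z') * (1 - X))⁻¹) ≤ 1 := by
    rw [map_inv₀, map_mul, hzl, hX1, mul_one, inv_one]
  have hD2 : v ((1 - z')⁻¹) ≤ 1 := by rw [map_inv₀, hzl, inv_one]
  have hiv : (1 - z'⁻¹) = -(1 - z') / z' := by
    field_simp
    ring
  have e : τ * ((1 + X) / (1 - X)) - (τ * ((1 + z') / (1 - z'))
      + τ ^ 2 * (4 * ((1 - z'⁻¹) * (1 - z'))⁻¹ * M))
      = τ * ((2 * ((1 - z') * (1 - X))⁻¹) * (X - z' * (1 - 2 * τ * M)))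
        - τ * (τ * ((4 * z' * M * ((1 - z') * (1 - X))⁻¹ * (1 - z')⁻¹) * (X - z'))) := by
    rw [hiv]
    field_simp
    ring
  rw [e, sq]
  have hτ0 : 0 < v τ := Lb_pos hs.t0
  apply Lb_ssub
  · rw [map_mul]
    apply mul_lt_mul_of_pos_left _ hτ0
    apply Lb_smul' _ hk
    (repeat' first | assumption | exact Lb_ione | exact Lb_iofNat _ | exact Lb_inat _ | apply Lb_iadd | apply Lb_isub | apply Lb_imul | apply Lb_ineg | apply Lb_ipow)
  · rw [map_mul]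
    apply mul_lt_mul_of_pos_left _ hτ0
    apply Lb_tmul hs.t0
    apply Lb_smul' _ hδ
    (repeat' first | assumption | exact Lb_ione | exact Lb_iofNat _ | exact Lb_inat _ | apply Lb_iadd | apply Lb_isub | apply Lb_imul | apply Lb_ineg | apply Lb_ipow)

/-- `G` in terms of `u = 1/y` -/
theorem Lb_G_eq (hs : Sym v b c τ β S q) {x : K} (hx0 : x ≠ 0) (hx : x ≠ τ) :
    Lb_G c τ x * (1 + τ * ((1 - τ * x) / (x - τ))) = 1 - τ * ((1 - τ * x) / (x - τ)) := by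
  have hm := Lb_m0 hs
  have ht := hs.ht
  have hx' : x - τ ≠ 0 := sub_ne_zero.2 hx
  unfold Lb_G Lb_κ
  field_simp
  linear_combination (-(1 - τ ^ 2) * x) * ht

/-- `X` in terms of `y` -/
theorem Lb_X_eq (hs : Sym v b c τ β S q) {x : K} (hx : 1 - τ * x ≠ 0) :
    Lb_X c τ x * (1 + τ * yc τ x) = 1 - τ * yc τ x := by
  have hm := Lb_m0 hs
  have ht := hs.ht
  unfold Lb_X Lb_κ yc
  field_simp
  linear_combination (-x * (1 - τ ^ 2)) * ht

/-- the product of the first two factors -/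
theorem Lb_XG0 (hs : Sym v b c τ β S q) {x : K} (hx0 : x ≠ 0) (hx : 1 - τ * x ≠ 0)
    (hxτ : x ≠ τ) :
    Lb_X c τ x * Lb_G c τ x * (1 + τ ^ 2 + τ * (yc τ x + (yc τ x)⁻¹))
      = 1 + τ ^ 2 - τ * (yc τ x + (yc τ x)⁻¹) := by
  have h1 := Lb_X_eq hs hx
  have h2 := Lb_G_eq hs hx0 hxτ
  have hx' : x - τ ≠ 0 := sub_ne_zero.2 hxτ
  have h3 : (yc τ x)⁻¹ = (1 - τ * x) / (x - τ) := by
    unfold yc
    rw [inv_div]
  have h4 : yc τ x * (yc τ x)⁻¹ = 1 := by
    apply mul_inv_cancel₀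
    unfold yc
    exact div_ne_zero hx' hx
  rw [← h3] at h2
  have h5 : (1 + τ * yc τ x) * (1 + τ * (yc τ x)⁻¹)
      = 1 + τ ^ 2 + τ * (yc τ x + (yc τ x)⁻¹) := by
    linear_combination τ ^ 2 * h4
  have h6 : (1 - τ * yc τ x) * (1 - τ * (yc τ x)⁻¹)
      = 1 + τ ^ 2 - τ * (yc τ x + (yc τ x)⁻¹) := by
    linear_combination τ ^ 2 * h4
  rw [← h5, ← h6, ← h1, ← h2]
  ring

/-- the composite of the outer factors -/
theorem Lb_U (hc : Ctx v b c) (hr : Rot v b c q)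
    (hs : Sym v b c τ β S q) {x : ℕ → K}
    (hx : ∀ l < q, x (l + 1) = (x l + (x l)⁻¹ + (b - 1 - c ^ 2) / c) / b)
    (hx0 : v (x 0) = 1) (hu : ∀ l, 0 < l → l < q → v ((1 - τ * x l) / (x l - τ)) ≤ v τ)
    (j : ℕ) (hj : j < q) :
    ∃ U : K, v U ≤ v τ ∧
      v (U - ∑ l ∈ Ico 1 (j + 1), (1 - τ * x l) / (x l - τ)) < v τ ^ 2 ∧
      Lb_X c τ (x (j + 1)) * (1 + τ * U)
        = β⁻¹ ^ (j + 1) * (Lb_X c τ (x 0) * Lb_G c τ (x 0)) * (1 - τ * U) := by
  have hτ0 : 0 < v τ := Lb_pos hs.t0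
  have hti : v τ ≤ 1 := hs.vt.le
  induction j with
  | zero =>
    obtain ⟨-, -, h3, -⟩ := Lb_orbit hc hr hx hx0 0 hj
    refine ⟨0, by rw [map_zero]; exact zero_le, ?_, ?_⟩
    · simp only [zero_add, Ico_self, sum_empty, sub_zero, map_zero]
      exact pow_pos hτ0 2
    · rw [Lb_XG hc.c0 hc.b0 hs h3 (hx 0 hj)]
      ring
  | succ j ih =>
    obtain ⟨U, h1, h2, h3⟩ := ih (by omega)
    obtain ⟨-, -, h4, h5⟩ := Lb_orbit hc hr hx hx0 (j + 1) hj
    obtain ⟨h6, h7⟩ := h5 (by omega)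
    have hxτ : x (j + 1) ≠ τ := by
      rintro h
      rw [h] at h7
      exact absurd (lt_trans h7 hs.vt) (lt_irrefl _)
    have hu' := hu (j + 1) (by omega) hj
    have hG := Lb_G_eq hs h4 hxτ
    obtain ⟨u, hud⟩ : ∃ u, u = (1 - τ * x (j + 1)) / (x (j + 1) - τ) := ⟨_, rfl⟩
    rw [← hud] at hu' hG
    have hD : v (τ ^ 2 * U * u) < 1 := by
      rw [map_mul, map_mul, map_pow]
      calc v τ ^ 2 * v U * v u ≤ 1 * 1 * v τ := by
            apply mul_le_mul' (mul_le_mul' (pow_le_one' hti 2) (le_trans h1 hti)) hu'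
        _ < 1 := by rw [one_mul, one_mul]; exact hs.vt
    have hD1 := Lb_one_add hD
    have hD0 : 1 + τ ^ 2 * U * u ≠ 0 := ne_zero_of_v_one hD1
    have hUu : v (U + u) ≤ v τ := v.map_add_le h1 hu'
    refine ⟨(U + u) / (1 + τ ^ 2 * U * u), ?_, ?_, ?_⟩
    · rw [map_div₀, hD1, div_one]
      exact hUu
    · rw [sum_Ico_succ_top (by omega), ← hud]
      obtain ⟨s, hsd⟩ : ∃ s, s = ∑ l ∈ Ico 1 (j + 1), (1 - τ * x l) / (x l - τ) := ⟨_, rfl⟩
      rw [← hsd] at h2 ⊢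
      have hQ : (U + u) / (1 + τ ^ 2 * U * u) * (1 + τ ^ 2 * U * u) = U + u :=
        div_mul_cancel₀ _ hD0
      have e : (U + u) / (1 + τ ^ 2 * U * u) - (s + u)
          = (U - s) - τ ^ 2 * ((U + u) / (1 + τ ^ 2 * U * u) * (U * u)) := by
        linear_combination hQ
      rw [e]
      apply Lb_ssub h2
      rw [← map_pow]
      apply Lb_tmul (pow_ne_zero 2 hs.t0)
      rw [map_mul, map_div₀, hD1, div_one, map_mul]
      calc v (U + u) * (v U * v u) ≤ v τ * (1 * 1) :=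
            mul_le_mul' hUu (mul_le_mul' (le_trans h1 hti) (le_trans hu' hti))
        _ < 1 := by rw [one_mul, mul_one]; exact hs.vt
    · rw [Lb_XG hc.c0 hc.b0 hs h4 (hx (j + 1) hj)]
      have h8 : v (1 + τ * u) = 1 := Lb_one_add (Lb_smul hs.vt (le_trans hu' hti))
      have h80 := ne_zero_of_v_one h8
      have h9 : v (1 + τ * U) = 1 := Lb_one_add (Lb_smul hs.vt (le_trans h1 hti))
      have h90 := ne_zero_of_v_one h9
      have h10 : Lb_G c τ (x (j + 1)) = (1 - τ * u) / (1 + τ * u) := by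
        rw [eq_div_iff h80]
        exact hG
      have h11 : Lb_X c τ (x (j + 1))
          = β⁻¹ ^ (j + 1) * (Lb_X c τ (x 0) * Lb_G c τ (x 0)) * (1 - τ * U) / (1 + τ * U) := by
        rw [eq_div_iff h90]
        exact h3
      rw [h10, h11, pow_succ β⁻¹ (j + 1)]
      field_simp
      ring

/-- the final algebraic estimate -/
theorem Lb_fin (hs : Sym v b c τ β S q) {J0 U t J C2 H X XG yq : K} (hJi : v J ≤ 1)
    (hti : v t ≤ 1) (hJ0 : v (J0 - J) < 1) (hSt : v (S - t) < 1) (hHi : v H ≤ 1)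
    (hC2 : v C2 ≤ 1) (hH : H = C2 - J - J ^ 2 * t - J * t ^ 2)
    (hU : v (U - τ ^ 2 * C2) < v τ ^ 2) (h2 : v 2 = 1)
    (h1 : X * (1 + τ * yq) = 1 - τ * yq)
    (h3 : XG * (1 + τ ^ 2 + τ * J0) = 1 + τ ^ 2 - τ * J0)
    (h4 : X * (1 + τ * U) = β⁻¹ ^ q * XG * (1 - τ * U)) :
    v (yq - (J0 + S + τ ^ 2 * H)) < v τ ^ 2 := by
  have hττ : v τ ≤ 1 := hs.vt.le
  have hτ2 : v (τ ^ 2) < 1 := Lb_sq_lt1 hs.vt
  have hJ0i : v J0 ≤ 1 := by
    have e : J0 = (J0 - J) + J := by ring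
    rw [e]
    exact Lb_iadd hJ0.le hJi
  have hSi : v S ≤ 1 := by
    have e : S = (S - t) + t := by ring
    rw [e]
    exact Lb_iadd hSt.le hti
  have hU1 : v U ≤ v (τ ^ 2) := by
    have e : U = (U - τ ^ 2 * C2) + τ ^ 2 * C2 := by ring
    rw [e]
    apply v.map_add_le
    · rw [map_pow]
      exact hU.le
    · rw [map_mul]
      calc v (τ ^ 2) * v C2 ≤ v (τ ^ 2) * 1 := mul_le_mul_right hC2 _
        _ = v (τ ^ 2) := mul_one _
  have hUlt : v U < 1 := lt_of_le_of_lt hU1 hτ2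
  have hUi : v U ≤ 1 := hUlt.le
  have hSS : β⁻¹ ^ q * (1 + τ * S) = 1 - τ * S := hs.hS
  have a1 : 1 + τ * S ≠ 0 := ne_zero_of_v_one (Lb_one_add (v := v) (Lb_smul hs.vt hSi))
  have a2 : 1 + τ * U ≠ 0 := ne_zero_of_v_one (Lb_one_add (v := v) (Lb_smul hs.vt hUi))
  have a3 : 1 + τ ^ 2 + τ * J0 ≠ 0 := by
    apply ne_zero_of_v_one (v := v)
    rw [add_assoc]
    apply Lb_one_add
    exact Lb_sadd hτ2 (Lb_smul hs.vt hJ0i)
  -- the even and odd parts
  obtain ⟨E, hE⟩ : ∃ E, E = 1 + (τ ^ 2 + τ ^ 2 * U * S + τ ^ 2 * (τ ^ 2 * U * S)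
    + τ ^ 2 * (U + S) * J0) := ⟨_, rfl⟩
  obtain ⟨N, hN⟩ : ∃ N, N = J0 + τ ^ 2 * U * S * J0 + (U + S) * (1 + τ ^ 2) := ⟨_, rfl⟩
  have hEv : v E = 1 := by
    rw [hE]
    apply Lb_one_add
    apply Lb_sadd
    · apply Lb_sadd
      · apply Lb_sadd hτ2
        rw [mul_assoc]
        apply Lb_smul hτ2
        (repeat' first | assumption | exact Lb_ione | exact Lb_iofNat _ | exact Lb_inat _ | apply Lb_iadd | apply Lb_isub | apply Lb_imul | apply Lb_ineg | apply Lb_ipow)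
      · apply Lb_smul hτ2
        have := hτ2.le
        (repeat' first | assumption | exact Lb_ione | exact Lb_iofNat _ | exact Lb_inat _ | apply Lb_iadd | apply Lb_isub | apply Lb_imul | apply Lb_ineg | apply Lb_ipow)
    · rw [mul_assoc]
      apply Lb_smul hτ2
      (repeat' first | assumption | exact Lb_ione | exact Lb_iofNat _ | exact Lb_inat _ | apply Lb_iadd | apply Lb_isub | apply Lb_imul | apply Lb_ineg | apply Lb_ipow)
  have hE0 : E ≠ 0 := ne_zero_of_v_one hEv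
  have key : (1 - τ * yq) * ((1 + τ * U) * (1 + τ * S) * (1 + τ ^ 2 + τ * J0))
      = (1 + τ * yq) * ((1 - τ * U) * (1 - τ * S) * (1 + τ ^ 2 - τ * J0)) := by
    rw [← h1, ← h3, ← hSS]
    linear_combination ((1 + τ * yq) * (1 + τ * S) * (1 + τ ^ 2 + τ * J0)) * h4
  have h20 : (2 : K) ≠ 0 := ne_zero_of_v_one h2
  have hy : yq * E = N := by
    have h5 : 2 * τ * (yq * E - N) = 0 := by
      rw [hE, hN]
      linear_combination -key
    have h6 := (mul_eq_zero.1 h5).resolve_left (mul_ne_zero h20 hs.t0)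
    exact sub_eq_zero.1 h6
  have e1 : yq - (J0 + S + τ ^ 2 * H) = (N - (J0 + S + τ ^ 2 * H) * E) / E := by
    rw [← hy]
    field_simp
  rw [e1, map_div₀, hEv, div_one]
  have e2 : N - (J0 + S + τ ^ 2 * H) * E
      = (U - τ ^ 2 * C2)
        + τ ^ 2 * (-((J0 - J) * (1 + (J0 + J) * S + S ^ 2)) - (S - t) * (J ^ 2 + J * (S + t)))
        + τ ^ 2 * (U * (S * J0 + 1 - (J0 + S) * (S + τ ^ 2 * S + J0)))
        - τ ^ 2 * (τ ^ 2 * (H * (1 + U * S + τ ^ 2 * U * S + U * J0 + S * J0))) := by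
    rw [hE, hN, hH]
    ring
  have hτ20 : τ ^ 2 ≠ 0 := pow_ne_zero 2 hs.t0
  have hτ2i : v (τ ^ 2) ≤ 1 := hτ2.le
  rw [e2, ← map_pow]
  rw [← map_pow] at hU
  apply Lb_ssub
  · apply Lb_sadd
    · apply Lb_sadd hU
      apply Lb_tmul hτ20
      apply Lb_ssub
      · apply Lb_sneg
        apply Lb_smul hJ0
        (repeat' first | assumption | exact Lb_ione | exact Lb_iofNat _ | exact Lb_inat _ | apply Lb_iadd | apply Lb_isub | apply Lb_imul | apply Lb_ineg | apply Lb_ipow)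
      · apply Lb_smul hSt
        (repeat' first | assumption | exact Lb_ione | exact Lb_iofNat _ | exact Lb_inat _ | apply Lb_iadd | apply Lb_isub | apply Lb_imul | apply Lb_ineg | apply Lb_ipow)
    · apply Lb_tmul hτ20
      apply Lb_smul hUlt
      (repeat' first | assumption | exact Lb_ione | exact Lb_iofNat _ | exact Lb_inat _ | apply Lb_iadd | apply Lb_isub | apply Lb_imul | apply Lb_ineg | apply Lb_ipow)
  · apply Lb_tmul hτ20
    apply Lb_smul hτ2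
    (repeat' first | assumption | exact Lb_ione | exact Lb_iofNat _ | exact Lb_inat _ | apply Lb_iadd | apply Lb_isub | apply Lb_imul | apply Lb_ineg | apply Lb_ipow)

end Lb1

section Lb2

variable {k K : Type*} [Field k] [Field K] [Algebra k K]
  {P : ValuationSubring K} {b c τ β S : K} {q : ℕ}

theorem Lb_cst_le (hP : IsPl k P) (α : k) : P.valuation (algebraMap k K α) ≤ 1 := by
  by_cases h : α = 0
  · rw [h, map_zero, map_zero]
    exact zero_le_one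
  · exact (hP.cst α h).le

theorem Lb_charZ [CharZero k] (hP : IsPl k P) (j : ℕ) (hj : j ≠ 0) :
    P.valuation (j : K) = 1 := by
  have h : (j : K) = algebraMap k K (j : k) := (map_natCast (algebraMap k K) j).symm
  rw [h]
  exact hP.cst _ (Nat.cast_ne_zero.2 hj)

/-- the root of unity `ζ` -/
theorem Lb_zeta (hP : IsPl k P) (hc : Ctx P.valuation b c)
    (hr : Rot P.valuation b c q) {ζ : k} (hζ : P.valuation (b - algebraMap k K ζ) < 1) :
    IsPrimitiveRoot ζ q := by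
  have hq2 := hr.two_le
  have hpow : ∀ j : ℕ, P.valuation (b ^ j - algebraMap k K (ζ ^ j)) < 1 := by
    intro j
    induction j with
    | zero => simp
    | succ j ih =>
      have e : b ^ (j + 1) - algebraMap k K (ζ ^ (j + 1))
          = (b ^ j - algebraMap k K (ζ ^ j)) * b
            + algebraMap k K (ζ ^ j) * (b - algebraMap k K ζ) := by
        rw [pow_succ, pow_succ, map_mul]
        ring
      rw [e]
      apply Lb_sadd
      · exact Lb_smul ih hc.vb.le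
      · exact Lb_smul' (Lb_cst_le hP _) hζ
  apply IsPrimitiveRoot.mk_of_lt ζ (by omega)
  · by_contra hne
    have h1 : P.valuation (algebraMap k K (ζ ^ q - 1)) = 1 := hP.cst _ (sub_ne_zero.2 hne)
    have e : algebraMap k K (ζ ^ q - 1) = (b ^ q - 1) - (b ^ q - algebraMap k K (ζ ^ q)) := by
      rw [map_sub, map_one]
      ring
    rw [e] at h1
    have h2 : P.valuation ((b ^ q - 1) - (b ^ q - algebraMap k K (ζ ^ q))) < 1 :=
      Lb_ssub (lt_of_le_of_lt hr.le hc.vc) (hpow q)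
    rw [h1] at h2
    exact lt_irrefl _ h2
  · intro l hl0 hl h
    have h1 := hr.one l hl0 hl
    have h2 := hpow l
    rw [h, map_one, h1] at h2
    exact lt_irrefl _ h2

theorem Lb_zpow (hP : IsPl k P) (hc : Ctx P.valuation b c)
    (hr : Rot P.valuation b c q) {ζ : k} (hζ : P.valuation (b - algebraMap k K ζ) < 1) :
    algebraMap k K ζ⁻¹ ^ q = 1 ∧ P.valuation (b * algebraMap k K ζ⁻¹ - 1) < 1 ∧
      ∀ l, 0 < l → l < q → P.valuation (1 - algebraMap k K ζ⁻¹ ^ l) = 1 := by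
  have hprim := Lb_zeta hP hc hr hζ
  have hq2 := hr.two_le
  have hζ0 : ζ ≠ 0 := hprim.ne_zero (by omega)
  refine ⟨?_, ?_, ?_⟩
  · rw [← map_pow, inv_pow, hprim.pow_eq_one, inv_one, map_one]
  · have e : b * algebraMap k K ζ⁻¹ - 1 = (b - algebraMap k K ζ) * algebraMap k K ζ⁻¹ := by
      rw [sub_mul, ← map_mul, mul_inv_cancel₀ hζ0, map_one]
    rw [e]
    exact Lb_smul hζ (Lb_cst_le hP _)
  · intro l hl0 hl
    rw [← map_pow, ← map_one (algebraMap k K), ← map_sub]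
    apply hP.cst
    rw [inv_pow]
    intro h
    have h1 : (ζ ^ l)⁻¹ = 1 := (sub_eq_zero.1 h).symm
    exact hprim.pow_ne_one_of_pos_of_lt (by omega) hl (inv_eq_one.1 h1)

/-- residue of `x + 1/x` -/
theorem Lb_J (hP : IsPl k P) {x : K} {w : k} (hw : w ≠ 0)
    (hx : P.valuation (x - algebraMap k K w) < 1) :
    P.valuation x = 1 ∧ P.valuation (x + x⁻¹ - algebraMap k K (w + w⁻¹)) < 1 := by
  have h1 : P.valuation x = 1 := v_eq_one_of_sub hx (hP.cst w hw)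
  refine ⟨h1, ?_⟩
  have hx0 : x ≠ 0 := ne_zero_of_v_one h1
  have hw0 : algebraMap k K w ≠ 0 := (_root_.map_ne_zero _).2 hw
  have e : x + x⁻¹ - algebraMap k K (w + w⁻¹)
      = (x - algebraMap k K w) - (x - algebraMap k K w) * (x⁻¹ * (algebraMap k K w)⁻¹) := by
    rw [map_add, map_inv₀]
    field_simp
    ring
  rw [e]
  apply Lb_ssub hx
  apply Lb_smul hx
  rw [map_mul, map_inv₀, map_inv₀, h1, hP.cst w hw, inv_one, mul_one]

/-- reciprocals of the outer points in the symmetric coordinate, to second order: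
`1/y_l = τ φ_l + τ² ψ_l (l t/q + J) + o(τ²)`. -/
theorem L_out [CharZero k] (hP : IsPl k P) (hc : Ctx P.valuation b c)
    (hr : Rot P.valuation b c q) (hs : Sym P.valuation b c τ β S q) {ζ t w : k}
    (hζ : P.valuation (b - algebraMap k K ζ) < 1)
    (ht : P.valuation (S - algebraMap k K t) < 1) {x : ℕ → K}
    (hx : ∀ l < q, x (l + 1) = (x l + (x l)⁻¹ + (b - 1 - c ^ 2) / c) / b)
    (hx0 : P.valuation (x 0 - algebraMap k K w) < 1) (hw : w ≠ 0) {l : ℕ} (hl : 0 < l)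
    (hlq : l < q) :
    P.valuation ((1 - τ * x l) / (x l - τ)
      - (τ * algebraMap k K ((1 + ζ⁻¹ ^ l) / (1 - ζ⁻¹ ^ l))
        + τ ^ 2 * algebraMap k K (4 * ((1 - ζ ^ l) * (1 - ζ⁻¹ ^ l))⁻¹
          * ((l : k) * t / q + (w + w⁻¹))))) < P.valuation τ ^ 2 := by
  obtain ⟨hz1, hz2, hz3⟩ := Lb_zpow hP hc hr hζ
  obtain ⟨hJ1, hJ2⟩ := Lb_J hP hw hx0
  have h := Lb_out (Lb_charZ hP) hc hr hs (Lb_cst_le hP t) ht hz1 hz2 hx hJ1 hJ2 l hl hlq
    (hz3 l hl hlq)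
  have e1 : algebraMap k K ((1 + ζ⁻¹ ^ l) / (1 - ζ⁻¹ ^ l))
      = (1 + algebraMap k K ζ⁻¹ ^ l) / (1 - algebraMap k K ζ⁻¹ ^ l) := by
    simp only [map_div₀, map_add, map_sub, map_one, map_pow]
  have e2 : algebraMap k K (4 * ((1 - ζ ^ l) * (1 - ζ⁻¹ ^ l))⁻¹ * ((l : k) * t / q + (w + w⁻¹)))
      = 4 * ((1 - (algebraMap k K ζ⁻¹)⁻¹ ^ l) * (1 - algebraMap k K ζ⁻¹ ^ l))⁻¹
        * (l * algebraMap k K t / q + algebraMap k K (w + w⁻¹)) := by
    simp only [map_mul, map_inv₀, map_sub, map_one, map_pow, map_add, map_div₀, map_natCast,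
      map_ofNat, inv_inv]
  rw [e1, e2]
  exact h

theorem L_exp [CharZero k] (hP : IsPl k P) (hc : Ctx P.valuation b c)
    (hr : Rot P.valuation b c q) (hs : Sym P.valuation b c τ β S q) {ζ t w : k}
    (hζ : P.valuation (b - algebraMap k K ζ) < 1)
    (ht : P.valuation (S - algebraMap k K t) < 1) {x : ℕ → K}
    (hx : ∀ l < q, x (l + 1) = (x l + (x l)⁻¹ + (b - 1 - c ^ 2) / c) / b)
    (hx0 : P.valuation (x 0 - algebraMap k K w) < 1) (hw : w ≠ 0) :
    P.valuation (yc τ (x q) - (yc τ (x 0) + (yc τ (x 0))⁻¹ + S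
      + τ ^ 2 * algebraMap k K (hfun q t (w + w⁻¹)))) < P.valuation τ ^ 2 := by
  have hq2 := hr.two_le
  have hcz := Lb_charZ (k := k) hP
  have h2 : P.valuation (2 : K) = 1 := by have := hcz 2 two_ne_zero; simpa using this
  have h20 : (2 : K) ≠ 0 := ne_zero_of_v_one h2
  obtain ⟨hz1, hz2, hz3⟩ := Lb_zpow hP hc hr hζ
  obtain ⟨hJ1, hJ2⟩ := Lb_J hP hw hx0
  have hprim := Lb_zeta hP hc hr hζ
  obtain ⟨hs1, hs2, hs3, -⟩ := root_sums (k := k) (q := q) (by omega) hprim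
  have hττ : P.valuation τ ≤ 1 := hs.vt.le
  have hτ0 : 0 < P.valuation τ := Lb_pos hs.t0
  have hti := Lb_cst_le hP t
  have hJi := Lb_cst_le hP (w + w⁻¹)
  have hSi : P.valuation S ≤ 1 := by
    have e : S = (S - algebraMap k K t) + algebraMap k K t := by ring
    rw [e]
    exact Lb_iadd ht.le hti
  -- the outer points
  have hout := fun (l : ℕ) (hl : 0 < l) (hlq : l < q) =>
    L_out hP hc hr hs hζ ht hx hx0 hw hl hlq
  have hu : ∀ l, 0 < l → l < q → P.valuation ((1 - τ * x l) / (x l - τ)) ≤ P.valuation τ := by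
    intro l hl hlq
    have h := hout l hl hlq
    obtain ⟨A, hA⟩ : ∃ A : K, A = algebraMap k K ((1 + ζ⁻¹ ^ l) / (1 - ζ⁻¹ ^ l)) := ⟨_, rfl⟩
    obtain ⟨B, hB⟩ : ∃ B : K, B = algebraMap k K (4 * ((1 - ζ ^ l) * (1 - ζ⁻¹ ^ l))⁻¹
          * ((l : k) * t / q + (w + w⁻¹))) := ⟨_, rfl⟩
    have hAi : P.valuation A ≤ 1 := by rw [hA]; exact Lb_cst_le hP _
    have hBi : P.valuation B ≤ 1 := by rw [hB]; exact Lb_cst_le hP _
    rw [← hA, ← hB] at h
    have e : (1 - τ * x l) / (x l - τ)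
        = ((1 - τ * x l) / (x l - τ) - (τ * A + τ ^ 2 * B)) + τ * (A + τ * B) := by ring
    rw [e]
    apply P.valuation.map_add_le
    · refine le_trans h.le ?_
      rw [sq]
      calc P.valuation τ * P.valuation τ ≤ P.valuation τ * 1 := mul_le_mul_right hττ _
        _ = P.valuation τ := mul_one _
    · rw [map_mul]
      calc P.valuation τ * P.valuation (A + τ * B) ≤ P.valuation τ * 1 :=
            mul_le_mul_right (by (repeat' first | assumption | exact Lb_ione | exact Lb_iofNat _ | exact Lb_inat _ | apply Lb_iadd | apply Lb_isub | apply Lb_imul | apply Lb_ineg | apply Lb_ipow)) _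
        _ = P.valuation τ := mul_one _
  obtain ⟨U, hU1, hU2, hU3⟩ := Lb_U hc hr hs hx hJ1 hu (q - 1) (by omega)
  rw [show q - 1 + 1 = q by omega] at hU2 hU3
  -- the sum of the outer contributions
  obtain ⟨C2, hC2⟩ : ∃ C2 : k, C2 = t * ((q : k) ^ 2 - 1) / 6
    + (w + w⁻¹) * (((q : k) ^ 2 - 1) / 3) := ⟨_, rfl⟩
  have hq0 : (q : k) ≠ 0 := by
    rw [Nat.cast_ne_zero]
    omega
  have hsumk : ∑ l ∈ Ico 1 q, (4 * ((1 - ζ ^ l) * (1 - ζ⁻¹ ^ l))⁻¹
      * ((l : k) * t / q + (w + w⁻¹))) = C2 := by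
    have e : ∀ l ∈ Ico 1 q, (4 * ((1 - ζ ^ l) * (1 - ζ⁻¹ ^ l))⁻¹
        * ((l : k) * t / q + (w + w⁻¹)))
        = (4 * t / q) * ((l : k) * ((1 - ζ ^ l) * (1 - ζ⁻¹ ^ l))⁻¹)
          + (4 * (w + w⁻¹)) * ((1 - ζ ^ l) * (1 - ζ⁻¹ ^ l))⁻¹ := by
      intro l _
      field_simp
    rw [sum_congr rfl e, sum_add_distrib, ← mul_sum, ← mul_sum, hs2, hs3, hC2]
    field_simp
    ring
  have hsumK : ∑ l ∈ Ico 1 q, (τ * algebraMap k K ((1 + ζ⁻¹ ^ l) / (1 - ζ⁻¹ ^ l))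
      + τ ^ 2 * algebraMap k K (4 * ((1 - ζ ^ l) * (1 - ζ⁻¹ ^ l))⁻¹
          * ((l : k) * t / q + (w + w⁻¹)))) = τ ^ 2 * algebraMap k K C2 := by
    rw [sum_add_distrib, ← mul_sum, ← mul_sum, ← map_sum, ← map_sum, hs1, hsumk, map_zero,
      mul_zero, zero_add]
  have hUC : P.valuation (U - τ ^ 2 * algebraMap k K C2) < P.valuation τ ^ 2 := by
    have e : U - τ ^ 2 * algebraMap k K C2
        = (U - ∑ l ∈ Ico 1 q, (1 - τ * x l) / (x l - τ))
          + ∑ l ∈ Ico 1 q, ((1 - τ * x l) / (x l - τ)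
            - (τ * algebraMap k K ((1 + ζ⁻¹ ^ l) / (1 - ζ⁻¹ ^ l))
              + τ ^ 2 * algebraMap k K (4 * ((1 - ζ ^ l) * (1 - ζ⁻¹ ^ l))⁻¹
                * ((l : k) * t / q + (w + w⁻¹))))) := by
      rw [sum_sub_distrib, hsumK]
      ring
    rw [e]
    apply Lb_sadd hU2
    apply Valuation.map_sum_lt
    · exact (pow_pos hτ0 2).ne'
    · intro l hl
      rw [mem_Ico] at hl
      exact hout l (by omega) hl.2
  -- the first point
  obtain ⟨-, -, hx0', -⟩ := Lb_orbit hc hr hx hJ1 0 (by omega)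
  have hx0τ : x 0 ≠ τ := by
    intro h
    rw [h] at hJ1
    exact absurd hs.vt (by rw [hJ1]; exact lt_irrefl _)
  have h1τ : P.valuation (1 - τ * x 0) = 1 := Lb_one_sub (Lb_smul hs.vt hJ1.le)
  have h1τ0 : 1 - τ * x 0 ≠ 0 := ne_zero_of_v_one h1τ
  have hXG := Lb_XG0 hs hx0' h1τ0 hx0τ
  -- `y₀ + 1/y₀`
  have hxτv : P.valuation (x 0 - τ) = 1 := by
    have e : x 0 - τ = x 0 + -τ := by ring
    rw [e, Valuation.map_add_eq_of_lt_left _ (by rw [Valuation.map_neg, hJ1]; exact hs.vt), hJ1]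
  have hxτ0 : x 0 - τ ≠ 0 := ne_zero_of_v_one hxτv
  have hJ0 : P.valuation (yc τ (x 0) + (yc τ (x 0))⁻¹ - algebraMap k K (w + w⁻¹)) < 1 := by
    have e : yc τ (x 0) + (yc τ (x 0))⁻¹ - algebraMap k K (w + w⁻¹)
        = (x 0 + (x 0)⁻¹ - algebraMap k K (w + w⁻¹))
          + τ * ((x 0 ^ 2 - 1) / (1 - τ * x 0) + (1 - x 0 ^ 2) / (x 0 * (x 0 - τ))) := by
      have e1 : (x 0 - τ) / (1 - τ * x 0) = x 0 + τ * ((x 0 ^ 2 - 1) / (1 - τ * x 0)) := by
        have hA : (x 0 ^ 2 - 1) / (1 - τ * x 0) * (1 - τ * x 0) = x 0 ^ 2 - 1 :=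
          div_mul_cancel₀ _ h1τ0
        rw [div_eq_iff h1τ0]
        linear_combination (-τ) * hA
      have e2 : (1 - τ * x 0) / (x 0 - τ)
          = (x 0)⁻¹ + τ * ((1 - x 0 ^ 2) / (x 0 * (x 0 - τ))) := by
        have hB : (1 - x 0 ^ 2) / (x 0 * (x 0 - τ)) = (x 0)⁻¹ * ((1 - x 0 ^ 2) / (x 0 - τ)) := by
          field_simp
        have hC : (1 - x 0 ^ 2) / (x 0 - τ) * (x 0 - τ) = 1 - x 0 ^ 2 :=
          div_mul_cancel₀ _ hxτ0
        have hD : x 0 * (x 0)⁻¹ = 1 := mul_inv_cancel₀ hx0'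
        rw [hB, div_eq_iff hxτ0]
        linear_combination (-τ * (x 0)⁻¹) * hC + (τ * x 0 - 1) * hD
      unfold yc
      rw [inv_div, e1, e2]
      ring
    rw [e]
    apply Lb_sadd hJ2
    apply Lb_smul hs.vt
    have hx1 := hJ1.le
    apply Lb_iadd
    · rw [map_div₀, h1τ, div_one]
      (repeat' first | assumption | exact Lb_ione | exact Lb_iofNat _ | exact Lb_inat _ | apply Lb_iadd | apply Lb_isub | apply Lb_imul | apply Lb_ineg | apply Lb_ipow)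
    · rw [map_div₀, map_mul, hJ1, hxτv, mul_one, div_one]
      (repeat' first | assumption | exact Lb_ione | exact Lb_iofNat _ | exact Lb_inat _ | apply Lb_iadd | apply Lb_isub | apply Lb_imul | apply Lb_ineg | apply Lb_ipow)
  -- the last point
  have hkey := Lb_key1 h2 hc hr hs hx hJ1 hJ2 (q - 1) (by omega)
  rw [show q - 1 + 1 = q by omega] at hkey
  have hS1 : P.valuation (1 + τ * S) = 1 := Lb_one_add (Lb_smul hs.vt hSi)
  have hS0 : 1 + τ * S ≠ 0 := ne_zero_of_v_one hS1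
  have hXq : P.valuation (Lb_X c τ (x q) - 1) ≤ P.valuation τ := by
    have hβq : β⁻¹ ^ q = 1 - τ * (2 * S / (1 + τ * S)) := by
      have := hs.hS
      field_simp
      field_simp at this
      linear_combination this
    have e : Lb_X c τ (x q) - 1
        = (Lb_X c τ (x q) - β⁻¹ ^ q * (1 - 2 * τ * algebraMap k K (w + w⁻¹)))
          - τ * (2 * S / (1 + τ * S) * (1 - 2 * τ * algebraMap k K (w + w⁻¹))
            + 2 * algebraMap k K (w + w⁻¹)) := by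
      rw [hβq]
      ring
    rw [e]
    have h3 : P.valuation (2 * S / (1 + τ * S)) ≤ 1 := by
      rw [map_div₀, hS1, div_one]
      (repeat' first | assumption | exact Lb_ione | exact Lb_iofNat _ | exact Lb_inat _ | apply Lb_iadd | apply Lb_isub | apply Lb_imul | apply Lb_ineg | apply Lb_ipow)
    apply P.valuation.map_sub_le hkey.le
    rw [map_mul]
    calc P.valuation τ * _ ≤ P.valuation τ * 1 := mul_le_mul_right (by (repeat' first | assumption | exact Lb_ione | exact Lb_iofNat _ | exact Lb_inat _ | apply Lb_iadd | apply Lb_isub | apply Lb_imul | apply Lb_ineg | apply Lb_ipow)) _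
      _ = P.valuation τ := mul_one _
  have hxq : P.valuation (x q) ≤ 1 := by
    have hvc := Lb_vc h2 hs
    have e : Lb_κ τ * (c * x q) = (Lb_κ τ - 1) - (Lb_X c τ (x q) - 1) := by
      unfold Lb_X
      ring
    have h3 : P.valuation (Lb_κ τ * (c * x q)) ≤ P.valuation τ := by
      rw [e]
      exact P.valuation.map_sub_le (Lb_κ_sub_lt h2 hs).le hXq
    rw [map_mul, Lb_vκ hs, one_mul, map_mul, hvc] at h3
    by_contra hcon
    rw [not_le] at hcon
    have h4 : P.valuation τ * 1 < P.valuation τ * P.valuation (x q) :=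
      mul_lt_mul_of_pos_left hcon hτ0
    rw [mul_one] at h4
    exact absurd h3 (not_le.2 h4)
  have h1q : 1 - τ * x q ≠ 0 := ne_zero_of_v_one (Lb_one_sub (Lb_smul hs.vt hxq))
  have hXq' := Lb_X_eq hs h1q
  apply Lb_fin (t := algebraMap k K t) (J := algebraMap k K (w + w⁻¹))
    (C2 := algebraMap k K C2) hs hJi hti hJ0 ht (Lb_cst_le hP _) (Lb_cst_le hP _) ?_ hUC h2 hXq'
    hXG hU3
  rw [← map_pow, ← map_pow, ← map_mul, ← map_mul, ← map_sub, ← map_sub, ← map_sub]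
  congr 1
  rw [hC2]
  unfold hfun
  field_simp
  ring

end Lb2

end Pool.Agent.helper56.P3
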